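import Pool.Agent.AT8.Stmts3

/-!
# Squad AT8, row AVO: Bessel's inequality for the averages
-/

set_option autoImplicit false
set_option maxHeartbeats 4000000

open scoped BigOperators

noncomputable section

namespace Pool.Agent.PP.T8.H99

open Pool.Agent.Helper51_AWC Pool.Agent.Helper79_WRA Pool.Agent.PP Pool.Agent.PP.KF
open Pool.Agent.PP.K9 Pool.Agent.PP.K9.H97 Pool.Agent.PP.H75 Pool.Agent.PP.T3 Pool.Agent.PP.T2

attribute [local instance] Ideal.Quotient.field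

/-- AVO: Bessel's inequality for the averages. -/
theorem avo (dor : DorStmt) (rkx : RkxStmt) (av1 : Av1Stmt) (bes : T3.BesStmt) (pwu : PwuStmt)
    (inx : K9.InxStmt) : AvoStmt := by
  intro ℓ hℓ M _ hM hℓ2 G _ _ N hN e V γ b d c ε hD a k hk hka hexp y hy j hj
  classical
  have := Fintype.ofFinite G
  have hp : ℓ.Prime := Fact.out
  have hF : GoodF ℓ (FF M) := H50.fld ℓ Fact.out M hM
  have hL := hD.ld
  have hab := hL.ab
  have hix : ¬ ℓ ∣ ix V γ :=
    inx ℓ M hM G e hL.blk V hL.tp hab γ hL.gam.supp hL.gam.blk hL.und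
  have hR := rkx ℓ (FF M) hF G e V γ hL hix a k hk hka hexp y hy
  obtain ⟨W, hW⟩ : ∃ W : Subgroup G, W = Uw (ℓ ^ k) V := ⟨_, rfl⟩
  have hWV : W ≤ V := by
    rw [hW]
    exact (pwu G (ℓ ^ k) V hab).2.1
  have hreg : ∀ j : ℕ, ¬ ℓ ∣ j → ∀ w ∈ W, Rg V γ (y ^ j * w) := by
    intro j hj w hw
    rw [hW] at hw
    exact ((rkx ℓ (FF M) hF G e V γ hL hix a k hk hka hexp _ (hR.1 j hj)).2.1 w hw).1
  rw [← hW]
  have hnW : 0 < Nat.card W := Nat.card_pos
  have hnWr : (0 : ℝ) < Nat.card W := by exact_mod_cast hnW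
  have hnWc : (Nat.card W : ℂ) ≠ 0 := by exact_mod_cast hnW.ne'
  obtain ⟨I, hI⟩ : ∃ I : Finset (G → ℂ), ∀ χ, χ ∈ I ↔ χ ∈ Irr G :=
    ⟨(irr_finite' (G := G)).toFinset, fun χ => Set.Finite.mem_toFinset _⟩
  obtain ⟨J, hJ⟩ : ∃ J : Fin (ℓ ^ (k - 1)) → ℕ, ∀ i, J i = j + ℓ * i := ⟨fun i => j + ℓ * i,
    fun _ => rfl⟩
  have hJm : ∀ i, j ≡ J i [MOD ℓ] := by
    intro i
    rw [hJ]
    exact (Nat.modEq_iff_dvd' (Nat.le_add_right _ _)).2 (by simp)
  have hJd : ∀ i, ¬ ℓ ∣ J i := fun i h => hj (((hJm i).dvd_iff (dvd_refl ℓ)).2 h)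
  have hfw : Fintype W := Fintype.ofFinite W
  have hcardW : (Fintype.card W : ℂ) = Nat.card W := by rw [Nat.card_eq_fintype_card]
  -- the inner products
  have hG : ∀ i i' : Fin (ℓ ^ (k - 1)), ∀ w w' : W,
      ∑ χ ∈ I, vv M b d (y ^ J i * w) χ * starRingEnd ℂ (vv M b d (y ^ J i' * w') χ) =
        if i = i' ∧ w = w' then (Nat.card V : ℂ) else 0 := by
    intro i i' w w'
    have hr := hreg (J i) (hJd i) w w.2
    have hr' := hreg (J i') (hJd i') w' w'.2
    have h1 := dor ℓ M hM G e V γ b d c ε hD _ _ hr hr'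
    have h3 : ∑ᶠ ψ ∈ Irr G, vv M b d (y ^ J i * w) ψ *
        starRingEnd ℂ (vv M b d (y ^ J i' * w') ψ) =
        ∑ ψ ∈ I, vv M b d (y ^ J i * w) ψ * starRingEnd ℂ (vv M b d (y ^ J i' * w') ψ) := by
      rw [← finsum_mem_coe_finset]
      refine finsum_mem_congr ?_ (fun _ _ => rfl)
      ext ψ
      rw [Finset.mem_coe, hI]
    rw [h3] at h1
    split_ifs with hc
    · refine h1.1 ⟨1, (Tg V γ).one_mem, ?_⟩
      rw [hc.1, hc.2]
      group
    · refine h1.2 ?_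
      rintro ⟨t, ht, htu⟩
      apply hc
      have hmod : J i' ≡ J i [MOD ℓ] := (hJm i').symm.trans (hJm i)
      have hw : (w : G) ∈ Uw (ℓ ^ k) V := (SetLike.ext_iff.1 hW _).1 w.2
      have hw' : (w' : G) ∈ Uw (ℓ ^ k) V := (SetLike.ext_iff.1 hW _).1 w'.2
      have hct := hR.2.2.1 (J i') (J i) (hJd i') hmod w' hw' w hw t ht htu
      have hmem : y ^ J i' * (w' : G) ∈ V := hr'.1
      have hcomm := Subgroup.mem_centralizer_iff.1 hct _ hmem
      have heq : y ^ J i' * (w' : G) = y ^ J i * (w : G) := by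
        rw [← htu, ← hcomm]
        group
      have hmodk := hR.2.2.2 (J i') (J i) w' hw' w hw heq
      have hii : i = i' := by
        have h4 : (ℓ * (i' : ℕ)) ≡ (ℓ * (i : ℕ)) [MOD ℓ ^ k] := by
          rw [hJ, hJ] at hmodk
          exact Nat.ModEq.add_left_cancel' j hmodk
        have h5 : ℓ ^ k = ℓ * ℓ ^ (k - 1) := by
          rw [← pow_succ']
          congr 1
          omega
        rw [h5] at h4
        have h6 : (i' : ℕ) ≡ (i : ℕ) [MOD ℓ ^ (k - 1)] :=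
          Nat.ModEq.mul_left_cancel' hp.pos.ne' h4
        have h7 : (i' : ℕ) = i := Nat.ModEq.eq_of_lt_of_lt h6 i'.2 i.2
        exact (Fin.ext h7).symm
      refine ⟨hii, ?_⟩
      rw [hii] at heq
      exact (Subtype.ext (mul_left_cancel heq)).symm
  -- the averages
  obtain ⟨aa, haa⟩ : ∃ aa : Fin (ℓ ^ (k - 1)) → (G → ℂ) → ℂ,
      ∀ i χ, aa i χ = av M b d ε W (y ^ J i) χ := ⟨_, fun _ _ => rfl⟩
  have haa' : ∀ i χ, aa i χ = ∑ w : W, (Nat.card W : ℂ)⁻¹ * ((ε (y ^ J i * w) : ℂ) *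
      vv M b d (y ^ J i * w) χ) := by
    intro i χ
    rw [haa, av, finsum_eq_sum_of_fintype, Finset.mul_sum]
  have hgram : ∀ i i', ∑ χ : I, aa i χ.1 * starRingEnd ℂ (aa i' χ.1) =
      if i = i' then ((Nat.card V / Nat.card W : ℝ) : ℂ) else 0 := by
    intro i i'
    rw [Finset.sum_coe_sort I (fun χ => aa i χ * starRingEnd ℂ (aa i' χ))]
    have s1 : ∑ χ ∈ I, aa i χ * starRingEnd ℂ (aa i' χ) =
        ∑ w : W, ∑ w' : W, ((Nat.card W : ℂ)⁻¹ * (Nat.card W : ℂ)⁻¹ *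
          ((ε (y ^ J i * w) : ℂ) * (ε (y ^ J i' * w') : ℂ))) *
          ∑ χ ∈ I, vv M b d (y ^ J i * w) χ *
            starRingEnd ℂ (vv M b d (y ^ J i' * w') χ) := by
      simp only [Finset.mul_sum]
      rw [Finset.sum_comm]
      have s2 : ∀ χ ∈ I, aa i χ * starRingEnd ℂ (aa i' χ) =
          ∑ w' : W, ∑ w : W, ((Nat.card W : ℂ)⁻¹ * (Nat.card W : ℂ)⁻¹ *
          ((ε (y ^ J i * w) : ℂ) * (ε (y ^ J i' * w') : ℂ))) *
          (vv M b d (y ^ J i * w) χ * starRingEnd ℂ (vv M b d (y ^ J i' * w') χ)) := by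
        intro χ _
        rw [haa' i, haa' i', map_sum, Finset.sum_mul_sum, Finset.sum_comm]
        refine Finset.sum_congr rfl fun w' _ => Finset.sum_congr rfl fun w _ => ?_
        rw [map_mul, map_mul, map_inv₀, Complex.conj_natCast, map_intCast]
        ring
      rw [Finset.sum_congr rfl s2, Finset.sum_comm]
      refine Finset.sum_congr rfl fun w' _ => ?_
      rw [Finset.sum_comm]
    rw [s1]
    have s3 : ∀ w w' : W, ((Nat.card W : ℂ)⁻¹ * (Nat.card W : ℂ)⁻¹ *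
          ((ε (y ^ J i * w) : ℂ) * (ε (y ^ J i' * w') : ℂ))) *
          ∑ χ ∈ I, vv M b d (y ^ J i * w) χ *
            starRingEnd ℂ (vv M b d (y ^ J i' * w') χ) =
        if w' = w then (if i = i' then (Nat.card W : ℂ)⁻¹ * (Nat.card W : ℂ)⁻¹ *
          (Nat.card V : ℂ) else 0) else 0 := by
      intro w w'
      rw [hG]
      by_cases h1 : w' = w
      · subst h1
        by_cases h2 : i = i'
        · subst h2
          rw [if_pos ⟨rfl, rfl⟩, if_pos rfl, if_pos rfl]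
          have hs : (ε (y ^ J i * w') : ℂ) * (ε (y ^ J i * w') : ℂ) = 1 := by
            rcases hD.sg _ (hreg (J i) (hJd i) w' w'.2) with h | h
            · rw [h]; norm_num
            · rw [h]; norm_num
          rw [hs]
          ring
        · rw [if_neg (fun h => h2 h.1), if_pos rfl, if_neg h2, mul_zero]
      · rw [if_neg (fun h => h1 h.2.symm), if_neg h1, mul_zero]
    simp only [s3]
    rw [Finset.sum_congr rfl (fun w _ => Finset.sum_ite_eq' Finset.univ w _)]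
    simp only [Finset.mem_univ, if_true]
    rw [Finset.sum_const, Finset.card_univ, nsmul_eq_mul, hcardW]
    split_ifs with h
    · push_cast
      field_simp
    · rw [mul_zero]
  -- Bessel's inequality
  obtain ⟨R, hRd⟩ : ∃ R : Finset (G → ℂ), ∀ χ, χ ∈ R ↔ χ ∈ IrrE M e ∧ ∀ g, χ (g ^ N) = χ g :=
    ⟨I.filter (fun χ => χ ∈ IrrE M e ∧ ∀ g, χ (g ^ N) = χ g), fun χ => by
      rw [Finset.mem_filter]
      exact ⟨fun h => h.2, fun h => ⟨(hI χ).2 h.1.1, h⟩⟩⟩
  have hRI : R ⊆ I := fun χ h => (hI χ).2 ((hRd χ).1 h).1.1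
  obtain ⟨x, hx⟩ : ∃ x : ℝ, x = ∑ χ ∈ R, Complex.normSq (av M b d ε W (y ^ j) χ) := ⟨_, rfl⟩
  have hfs : ∑ᶠ χ ∈ {χ | χ ∈ IrrE M e ∧ ∀ g, χ (g ^ N) = χ g},
      Complex.normSq (av M b d ε W (y ^ j) χ) = x := by
    rw [hx, ← finsum_mem_coe_finset]
    refine finsum_mem_congr ?_ (fun _ _ => rfl)
    ext χ
    rw [Finset.mem_coe, hRd]
    rfl
  rw [hfs]
  have hx0 : 0 ≤ x := by
    rw [hx]
    exact Finset.sum_nonneg fun _ _ => Complex.normSq_nonneg _
  have hc0 : (0 : ℝ) ≤ Nat.card V / Nat.card W := by positivity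
  have hB := bes (Fin (ℓ ^ (k - 1))) I (fun i χ => aa i χ.1) (Nat.card V / Nat.card W : ℝ) hc0 (by
    intro i
    simp only [hgram]
    rw [Finset.sum_eq_single i]
    · rw [if_pos rfl, Complex.norm_real, Real.norm_eq_abs, abs_of_nonneg hc0]
    · intro i' _ hne
      rw [if_neg (fun h => hne h.symm), norm_zero]
    · intro h
      exact absurd (Finset.mem_univ _) h)
    (fun χ => if χ.1 ∈ R then starRingEnd ℂ (av M b d ε W (y ^ j) χ.1) else 0)
  have h1 : ∀ i : Fin (ℓ ^ (k - 1)), ∑ χ : I, (if χ.1 ∈ R then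
      starRingEnd ℂ (av M b d ε W (y ^ j) χ.1) else 0) * aa i χ.1 = (x : ℂ) := by
    intro i
    rw [Finset.sum_coe_sort I (fun χ => (if χ ∈ R then
      starRingEnd ℂ (av M b d ε W (y ^ j) χ) else 0) * aa i χ)]
    rw [← Finset.sum_subset hRI]
    · rw [hx]
      push_cast
      refine Finset.sum_congr rfl fun χ hχ => ?_
      rw [if_pos hχ, haa]
      have hχ' := (hRd χ).1 hχ
      have h2 := (av1 ℓ M hM hℓ2 G N hN e V γ b d c ε hD a k hk hka hexp y hy χ hχ'.1 hχ'.2 j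
        hj).1 (J i) (hJm i)
      rw [← hW] at h2
      rw [← h2, Complex.normSq_eq_conj_mul_self]
    · intro χ _ hn
      rw [if_neg hn, zero_mul]
  have h2 : ∑ χ : I, Complex.normSq (if χ.1 ∈ R then
      starRingEnd ℂ (av M b d ε W (y ^ j) χ.1) else 0) = x := by
    rw [Finset.sum_coe_sort I (fun χ => Complex.normSq (if χ ∈ R then
      starRingEnd ℂ (av M b d ε W (y ^ j) χ) else 0))]
    rw [← Finset.sum_subset hRI]
    · rw [hx]
      refine Finset.sum_congr rfl fun χ hχ => ?_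
      rw [if_pos hχ, Complex.normSq_conj]
    · intro χ _ hn
      rw [if_neg hn, map_zero]
  simp only [h1, h2] at hB
  rw [Finset.sum_const, Finset.card_univ, Fintype.card_fin, nsmul_eq_mul, Complex.normSq_ofReal]
    at hB
  push_cast at hB
  rcases hx0.eq_or_lt with h0 | h0
  · rw [← h0, mul_zero]
    exact Nat.cast_nonneg _
  · have h3 : (ℓ : ℝ) ^ (k - 1) * x ≤ Nat.card V / Nat.card W := by
      have h4 : ((ℓ : ℝ) ^ (k - 1) * x) * x ≤ (Nat.card V / Nat.card W : ℝ) * x := by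
        rw [mul_assoc]
        exact hB
      exact le_of_mul_le_mul_right h4 h0
    rw [le_div_iff₀ hnWr] at h3
    calc (ℓ : ℝ) ^ (k - 1) * Nat.card W * x = (ℓ : ℝ) ^ (k - 1) * x * Nat.card W := by ring
      _ ≤ Nat.card V := h3

end Pool.Agent.PP.T8.H99
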