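import Pool.Agent.AT8.Stmts3
import Pool.Agent.Helper72_AT3.NIB

/-!
# Squad AT8, row SBS: the strict form of Bessel's inequality with the degree vector
-/

set_option autoImplicit false
set_option maxHeartbeats 4000000

open scoped BigOperators

noncomputable section

namespace Pool.Agent.PP.T8.H99

open Pool.Agent.Helper51_AWC Pool.Agent.Helper79_WRA Pool.Agent.PP Pool.Agent.PP.KF
open Pool.Agent.PP.K9 Pool.Agent.PP.K9.H97 Pool.Agent.PP.H75 Pool.Agent.PP.T3 Pool.Agent.PP.T2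

attribute [local instance] Ideal.Quotient.field

/-- Bessel's inequality with one additional orthogonal vector, abstract form. -/
theorem bessel_strict {ι κ : Type*} [DecidableEq κ] (U : Finset ι) (E : Finset κ) (v : ι → κ → ℂ)
    (D : κ → ℝ) (x : κ) (hx : x ∈ E) (hD : D x ≠ 0)
    (orth : ∀ u ∈ U, ∑ k ∈ E, v u k * (D k : ℂ) = 0) (c : ℝ) (hc : 0 < c)
    (hw : ∑ k ∈ E, Complex.normSq (∑ u ∈ U, starRingEnd ℂ (v u x) * v u k) ≤
      c * ∑ u ∈ U, Complex.normSq (v u x)) :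
    ∑ u ∈ U, Complex.normSq (v u x) < c := by
  set A : ℝ := ∑ u ∈ U, Complex.normSq (v u x) with hA
  set w : κ → ℂ := fun k => ∑ u ∈ U, starRingEnd ℂ (v u x) * v u k with hwd
  set S : ℝ := ∑ k ∈ E, D k ^ 2 with hS
  have hA0 : 0 ≤ A := Finset.sum_nonneg fun u _ => Complex.normSq_nonneg _
  have hDS : D x ^ 2 ≤ S :=
    Finset.single_le_sum (f := fun k => D k ^ 2) (fun k _ => sq_nonneg _) hx
  have hDx : 0 < D x ^ 2 := by positivity
  have hS0 : 0 < S := lt_of_lt_of_le hDx hDS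
  have hwx : w x = (A : ℂ) := by
    rw [hwd, hA]
    push_cast
    refine Finset.sum_congr rfl fun u _ => ?_
    rw [Complex.normSq_eq_conj_mul_self]
  have hwD : ∑ k ∈ E, w k * (D k : ℂ) = 0 := by
    rw [hwd]
    simp only [Finset.sum_mul]
    rw [Finset.sum_comm]
    refine Finset.sum_eq_zero fun u hu => ?_
    have h := orth u hu
    calc ∑ k ∈ E, starRingEnd ℂ (v u x) * v u k * (D k : ℂ)
        = starRingEnd ℂ (v u x) * ∑ k ∈ E, v u k * (D k : ℂ) := by
          rw [Finset.mul_sum]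
          refine Finset.sum_congr rfl fun k _ => by ring
      _ = 0 := by rw [h, mul_zero]
  -- the test vector
  set y : κ → ℝ := fun k => (if k = x then 1 else 0) - D x / S * D k with hy
  have h1 : (A : ℂ) = ∑ k ∈ E, w k * (y k : ℂ) := by
    have e1 : ∀ k ∈ E, w k * (y k : ℂ) =
        (if k = x then w k else 0) - (D x / S : ℝ) * (w k * (D k : ℂ)) := by
      intro k _
      rw [hy]
      simp only
      split_ifs
      · push_cast
        ring
      · push_cast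
        ring
    rw [Finset.sum_congr rfl e1, Finset.sum_sub_distrib, ← Finset.mul_sum, hwD, mul_zero, sub_zero,
      Finset.sum_ite_eq' E x w, if_pos hx, hwx]
  have h2 : A ≤ ∑ k ∈ E, ‖w k‖ * |y k| := by
    have e1 : ‖(A : ℂ)‖ = A := by
      rw [Complex.norm_real, Real.norm_eq_abs, abs_of_nonneg hA0]
    rw [← e1, h1]
    refine (norm_sum_le _ _).trans (le_of_eq ?_)
    refine Finset.sum_congr rfl fun k _ => ?_
    rw [norm_mul, Complex.norm_real, Real.norm_eq_abs]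
  have h3 : A ^ 2 ≤ (∑ k ∈ E, ‖w k‖ ^ 2) * ∑ k ∈ E, |y k| ^ 2 :=
    (pow_le_pow_left₀ hA0 h2 2).trans (Finset.sum_mul_sq_le_sq_mul_sq E _ _)
  have h4 : ∑ k ∈ E, ‖w k‖ ^ 2 ≤ c * A := by
    refine le_trans (le_of_eq ?_) hw
    refine Finset.sum_congr rfl fun k _ => ?_
    rw [Complex.normSq_eq_norm_sq]
  have h5 : ∑ k ∈ E, |y k| ^ 2 = 1 - D x ^ 2 / S := by
    have e1 : ∀ k ∈ E, |y k| ^ 2 =
        (if k = x then 1 - 2 * (D x / S * D k) else 0) + (D x / S) ^ 2 * D k ^ 2 := by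
      intro k _
      rw [sq_abs, hy]
      simp only
      split_ifs <;> ring
    rw [Finset.sum_congr rfl e1, Finset.sum_add_distrib, ← Finset.mul_sum, ← hS,
      Finset.sum_ite_eq' E x (fun k => 1 - 2 * (D x / S * D k)), if_pos hx]
    field_simp
    ring
  have h6 : 0 < D x ^ 2 / S := div_pos hDx hS0
  have h7 : D x ^ 2 / S ≤ 1 := (div_le_one hS0).2 hDS
  rcases hA0.eq_or_lt with h0 | h0
  · rw [← h0]
    exact hc
  · have h8 : A ^ 2 ≤ c * A * (1 - D x ^ 2 / S) := by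
      rw [← h5]
      refine h3.trans (mul_le_mul_of_nonneg_right h4 ?_)
      exact Finset.sum_nonneg fun k _ => sq_nonneg _
    have h9 : A ≤ c * (1 - D x ^ 2 / S) := by
      have : A * A ≤ A * (c * (1 - D x ^ 2 / S)) := by nlinarith
      exact le_of_mul_le_mul_left this h0
    nlinarith [mul_pos hc h6]

section main

variable {G : Type} [Group G] [Finite G] {ℓ : ℕ} [Fact ℓ.Prime]
  {M : Ideal (integralClosure ℤ ℂ)} [M.IsMaximal]

/-- the values vanish outside of the block -/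
theorem vv_out (smg : SmgStmt) (hM : (ℓ : integralClosure ℤ ℂ) ∈ M) {e : G → FF M}
    {V : Subgroup G} {γ : G → FF M} {b : G → G → FF M} {d : G → ℕ} {c : ℕ} {ε : G → ℤ}
    (h : Dat M ℓ e V γ b d c ε) {u : G} (hu : Rg V γ u) {χ : G → ℂ} (hχ : χ ∈ Irr G)
    (hn : χ ∉ IrrE M e) : vv M b d u χ = 0 := by
  have h1 := (smg ℓ M hM G u 1 hu.2.1 (H72.el_of_mem h.ld.tp.pg hu.1) (Subgroup.one_mem _)
    H25.reg_one (fun t : Cu u => b u t) (h.lc u hu).blk.blk.1 e h.ld.blk.1).1 (h.lc u hu).und χ hχ hn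
  unfold vv gv
  rw [mul_one] at h1
  rw [h1, zero_div]

/-- the values are orthogonal to the degrees -/
theorem vv_deg (wbo : WboStmt) (hM : (ℓ : integralClosure ℤ ℂ) ∈ M) {e : G → FF M}
    {V : Subgroup G} {γ : G → FF M} {b : G → G → FF M} {d : G → ℕ} {c : ℕ} {ε : G → ℤ}
    (h : Dat M ℓ e V γ b d c ε) {u : G} (hu : Rg V γ u) (E : Finset (G → ℂ))
    (hE : ∀ χ, χ ∈ E ↔ χ ∈ IrrE M e) : ∑ χ ∈ E, vv M b d u χ * χ 1 = 0 := by
  classical
  have := Fintype.ofFinite G
  have := Fintype.ofFinite (Cu u)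
  have hel : El ℓ u := H72.el_of_mem h.ld.tp.pg hu.1
  have e1 : ∀ χ ∈ E, vv M b d u χ * χ 1 =
      ∑ t : Cu u, (d u : ℂ)⁻¹ * eh M (fun t : Cu u => b u t) t * (χ (1 : G)⁻¹ * χ (u * t)) := by
    intro χ _
    unfold vv gv gbv
    rw [finsum_eq_sum_of_fintype, div_eq_mul_inv, Finset.sum_mul, Finset.sum_mul]
    refine Finset.sum_congr rfl fun t _ => ?_
    rw [inv_one]
    ring
  rw [Finset.sum_congr rfl e1, Finset.sum_comm]
  refine Finset.sum_eq_zero fun t _ => ?_
  rw [← Finset.mul_sum]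
  by_cases ht : Reg ℓ t
  · have hs : ¬ Reg ℓ (u * (t : G)) := by
      refine H72.sing_mul hel hu.2.1 ?_ ?_
      · exact (Subgroup.mem_centralizer_singleton_iff.1 t.2).symm
      · unfold Reg at ht ⊢
        rwa [Subgroup.orderOf_coe]
    have h1 := wbo ℓ M hM G e h.ld.blk.1 1 (u * (t : G)) H25.reg_one hs
    have h2 : ∑ χ ∈ E, χ (1 : G)⁻¹ * χ (u * (t : G)) = 0 := by
      rw [← h1]
      rw [← finsum_mem_coe_finset]
      refine finsum_mem_congr ?_ (fun _ _ => rfl)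
      ext χ
      rw [Finset.mem_coe, hE]
    rw [h2, mul_zero]
  · have h1 := H25.eh_sing wbo ℓ M hM (fun t : Cu u => b u t) (h.lc u hu).blk.blk.1 t ht
    rw [h1, mul_zero, zero_mul]

/-- The number of the conjugates of an element of `V` under the inertial group is at most the
inertial index. -/
theorem conj_card {F : Type} [Field F] (V : Subgroup G) (γ : G → F) (u : G) (hu : u ∈ V)
    (S : Finset G) (hS : ∀ z ∈ S, ∃ t ∈ Tg V γ, t * z * t⁻¹ = u) : S.card ≤ ix V γ := by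
  classical
  have := Fintype.ofFinite G
  have hix : ix V γ = Nat.card (Tg V γ ⧸ (Subgroup.centralizer (V : Set G)).subgroupOf (Tg V γ)) := rfl
  have : Fintype (Tg V γ ⧸ (Subgroup.centralizer (V : Set G)).subgroupOf (Tg V γ)) :=
    Fintype.ofFinite _
  rw [hix, Nat.card_eq_fintype_card, ← Finset.card_univ]
  have hsub : S ⊆ (Finset.univ : Finset (Tg V γ ⧸
      (Subgroup.centralizer (V : Set G)).subgroupOf (Tg V γ))).image
      (fun q => (q.out : G) * u * (q.out : G)⁻¹) := by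
    intro z hz
    obtain ⟨t, ht, hzt⟩ := hS z hz
    rw [Finset.mem_image]
    have ht' : t⁻¹ ∈ Tg V γ := (Tg V γ).inv_mem ht
    refine ⟨QuotientGroup.mk (⟨t⁻¹, ht'⟩ : Tg V γ), Finset.mem_univ _, ?_⟩
    obtain ⟨s, hs⟩ := QuotientGroup.mk_out_eq_mul
      ((Subgroup.centralizer (V : Set G)).subgroupOf (Tg V γ)) (⟨t⁻¹, ht'⟩ : Tg V γ)
    rw [hs]
    have hsc : ((s : Tg V γ) : G) ∈ Subgroup.centralizer (V : Set G) :=
      Subgroup.mem_subgroupOf.1 s.2
    have hcomm : ((s : Tg V γ) : G) * u = u * ((s : Tg V γ) : G) :=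
      (Subgroup.mem_centralizer_iff.1 hsc u hu).symm
    change t⁻¹ * ((s : Tg V γ) : G) * u * (t⁻¹ * ((s : Tg V γ) : G))⁻¹ = z
    have hz' : z = t⁻¹ * u * t := by
      rw [← hzt]
      group
    rw [hz', mul_assoc t⁻¹, hcomm]
    group
  exact (Finset.card_le_card hsub).trans Finset.card_image_le

/-- SBS: the strict form of Bessel's inequality. -/
theorem sbs (dor : DorStmt) (dpw : DpwStmt) (smg : SmgStmt) (wbo : WboStmt) : SbsStmt := by
  intro ℓ hℓ M _ hM hℓ2 G _ _ e V γ b d c ε h χ hχ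
  classical
  have := Fintype.ofFinite G
  have hfin : (IrrE M e).Finite := (irr_finite' (G := G)).subset fun _ h => h.1
  obtain ⟨E, hE⟩ : ∃ E : Finset (G → ℂ), ∀ χ, χ ∈ E ↔ χ ∈ IrrE M e :=
    ⟨hfin.toFinset, fun χ => Set.Finite.mem_toFinset hfin⟩
  obtain ⟨I, hI⟩ : ∃ I : Finset (G → ℂ), ∀ χ, χ ∈ I ↔ χ ∈ Irr G :=
    ⟨(irr_finite' (G := G)).toFinset, fun χ => Set.Finite.mem_toFinset _⟩
  obtain ⟨U, hU⟩ : ∃ U : Finset G, ∀ u, u ∈ U ↔ Rg V γ u :=
    ⟨Finset.univ.filter fun u => Rg V γ u, fun u => by simp⟩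
  have e0 : ∑ᶠ (u : G) (_ : Rg V γ u), Complex.normSq (vv M b d u χ) =
      ∑ u ∈ U, Complex.normSq (vv M b d u χ) := by
    rw [← finsum_mem_coe_finset]
    refine finsum_congr fun u => ?_
    have h1 : (u ∈ (U : Set G)) = Rg V γ u := by
      rw [Finset.mem_coe, hU]
    rw [h1]
  rw [e0]
  have hre : ∀ ψ ∈ Irr G, ((ψ 1).re : ℂ) = ψ 1 := by
    intro ψ hψ
    have h3 : starRingEnd ℂ (ψ 1) = ψ 1 := by
      rw [H94.irr_star hψ, inv_one]
    exact Complex.conj_eq_iff_re.1 h3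
  have hχI : χ ∈ Irr G := hχ.1
  have hcard : 0 < ix V γ * Nat.card V := by
    refine Nat.mul_pos ?_ Nat.card_pos
    have hix : ix V γ = Nat.card (Tg V γ ⧸
      (Subgroup.centralizer (V : Set G)).subgroupOf (Tg V γ)) := rfl
    rw [hix]
    exact Nat.card_pos
  refine bessel_strict U E (fun u ψ => vv M b d u ψ) (fun ψ => (ψ 1).re) χ ((hE χ).2 hχ) ?_ ?_ _
    (by exact_mod_cast hcard) ?_
  · intro h0
    have h1 := hre χ hχI
    rw [h0, Complex.ofReal_zero] at h1
    exact irr_one_ne hχI h1.symm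
  · intro u hu
    have h1 := vv_deg (ℓ := ℓ) wbo hM h ((hU u).1 hu) E hE
    rw [← h1]
    refine Finset.sum_congr rfl fun ψ hψ => ?_
    rw [hre ψ ((hE ψ).1 hψ).1]
  · -- the norm of the vector `w`
    have hdor : ∀ u ∈ U, ∀ u' ∈ U, ∑ ψ ∈ E, vv M b d u ψ * starRingEnd ℂ (vv M b d u' ψ) =
        if (∃ t ∈ Tg V γ, t * u' * t⁻¹ = u) then (Nat.card V : ℂ) else 0 := by
      intro u hu u' hu'
      have h1 := dor ℓ M hM G e V γ b d c ε h u u' ((hU u).1 hu) ((hU u').1 hu')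
      have h2 : ∑ᶠ ψ ∈ Irr G, vv M b d u ψ * starRingEnd ℂ (vv M b d u' ψ) =
          ∑ ψ ∈ E, vv M b d u ψ * starRingEnd ℂ (vv M b d u' ψ) := by
        have h3 : ∑ᶠ ψ ∈ Irr G, vv M b d u ψ * starRingEnd ℂ (vv M b d u' ψ) =
            ∑ ψ ∈ I, vv M b d u ψ * starRingEnd ℂ (vv M b d u' ψ) := by
          rw [← finsum_mem_coe_finset]
          refine finsum_mem_congr ?_ (fun _ _ => rfl)
          ext ψ
          rw [Finset.mem_coe, hI]
        rw [h3]
        symm
        refine Finset.sum_subset ?_ ?_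
        · intro ψ hψ
          exact (hI ψ).2 ((hE ψ).1 hψ).1
        · intro ψ hψ hn
          rw [vv_out smg hM h ((hU u).1 hu) ((hI ψ).1 hψ) (fun hh => hn ((hE ψ).2 hh)), zero_mul]
      rw [h2] at h1
      split_ifs with hc
      · exact h1.1 hc
      · exact h1.2 hc
    have hval : ∀ u ∈ U, ∀ u' ∈ U, (∃ t ∈ Tg V γ, t * u' * t⁻¹ = u) →
        vv M b d u' χ = vv M b d u χ := by
      intro u _ u' hu' ⟨t, ht, htu⟩
      have h1 := ((dpw ℓ M hM hℓ2 G e V γ b d c ε h).1 t ht u' ((hU u').1 hu')).2.2 χ hχI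
      rw [htu] at h1
      exact h1.symm
    -- the sum of squares as a complex number
    have hsum : ((∑ ψ ∈ E, Complex.normSq (∑ u ∈ U, starRingEnd ℂ (vv M b d u χ) *
        vv M b d u ψ) : ℝ) : ℂ) = ∑ u ∈ U, ∑ u' ∈ U,
          (if (∃ t ∈ Tg V γ, t * u' * t⁻¹ = u) then
            ((Nat.card V * Complex.normSq (vv M b d u χ) : ℝ) : ℂ) else 0) := by
      have s1 : ((∑ ψ ∈ E, Complex.normSq (∑ u ∈ U, starRingEnd ℂ (vv M b d u χ) *
          vv M b d u ψ) : ℝ) : ℂ) = ∑ ψ ∈ E, ∑ u ∈ U, ∑ u' ∈ U,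
          (starRingEnd ℂ (vv M b d u χ) * vv M b d u' χ) *
            (vv M b d u ψ * starRingEnd ℂ (vv M b d u' ψ)) := by
        push_cast
        refine Finset.sum_congr rfl fun ψ _ => ?_
        rw [← Complex.mul_conj, map_sum, Finset.sum_mul_sum]
        refine Finset.sum_congr rfl fun u _ => Finset.sum_congr rfl fun u' _ => ?_
        rw [map_mul, Complex.conj_conj]
        ring
      rw [s1, Finset.sum_comm]
      refine Finset.sum_congr rfl fun u hu => ?_
      rw [Finset.sum_comm]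
      refine Finset.sum_congr rfl fun u' hu' => ?_
      rw [← Finset.mul_sum, hdor u hu u' hu']
      split_ifs with hc
      · rw [hval u hu u' hu' hc]
        push_cast
        rw [Complex.normSq_eq_conj_mul_self]
        ring
      · rw [mul_zero]
    have hsum' : (∑ ψ ∈ E, Complex.normSq (∑ u ∈ U, starRingEnd ℂ (vv M b d u χ) *
        vv M b d u ψ) : ℝ) = ∑ u ∈ U, ∑ u' ∈ U,
          (if (∃ t ∈ Tg V γ, t * u' * t⁻¹ = u) then
            (Nat.card V * Complex.normSq (vv M b d u χ) : ℝ) else 0) := by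
      have : ((∑ ψ ∈ E, Complex.normSq (∑ u ∈ U, starRingEnd ℂ (vv M b d u χ) *
        vv M b d u ψ) : ℝ) : ℂ) = ((∑ u ∈ U, ∑ u' ∈ U,
          (if (∃ t ∈ Tg V γ, t * u' * t⁻¹ = u) then
            (Nat.card V * Complex.normSq (vv M b d u χ) : ℝ) else 0) : ℝ) : ℂ) := by
        rw [hsum]
        push_cast
        refine Finset.sum_congr rfl fun u _ => Finset.sum_congr rfl fun u' _ => ?_
        split_ifs <;> simp
      exact_mod_cast this
    rw [hsum', Finset.mul_sum]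
    refine Finset.sum_le_sum fun u hu => ?_
    rw [← Finset.sum_filter, Finset.sum_const, nsmul_eq_mul]
    have h1 := conj_card V γ u ((hU u).1 hu).1
      (U.filter fun u' => ∃ t ∈ Tg V γ, t * u' * t⁻¹ = u) (by
        intro z hz
        exact (Finset.mem_filter.1 hz).2)
    have h2 : ((U.filter fun u' => ∃ t ∈ Tg V γ, t * u' * t⁻¹ = u).card : ℝ) ≤ ix V γ := by
      exact_mod_cast h1
    have h3 : (0 : ℝ) ≤ Nat.card V * Complex.normSq (vv M b d u χ) :=
      mul_nonneg (Nat.cast_nonneg _) (Complex.normSq_nonneg _)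
    push_cast
    nlinarith [mul_le_mul_of_nonneg_right h2 h3]

end main

end Pool.Agent.PP.T8.H99
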